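import Pool.Agent.Helper93.TLE.StB

/-!
# Project TL, module MON: monotonicity of the level
-/

set_option autoImplicit false

namespace Pool.Agent.Helper85.TLE

open Pool.Agent.Helper14.CV (Homog EqC act Tl StFar StFex)
open Pool.Agent.Helper28.WK (Tw evw)
open Pool.Agent.Helper4.TL Pool.Agent.Helper93.TLE

theorem hMon : SEMon := by
  intro p R _ m n G hmn hG
  exact ⟨hG.1, fun a b c d hd hb hc => hG.2 a b c d hd hb (dvd_trans (pow_dvd_pow _ hmn) hc)⟩

end Pool.Agent.Helper85.TLE
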